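import Pool.Agent.H143R3.MT.Stmts

/-! Task MT-Pos of project H143-MT. -/

set_option autoImplicit false

open MeasureTheory ProbabilityTheory Filter Topology
open scoped ENNReal NNReal

namespace Pool.Agent.H885R3.MT

open Pool.Agent.H143R3.MT

universe u

theorem EX_ge (p : ℤ → ℝ≥0∞) : ∀ (n : ℕ) (f : List ℤ → ℝ≥0∞),
    p 0 ^ n * f (List.replicate n 0) ≤ EX p n 0 f
  | 0, f => by simp [EX]
  | n + 1, f => by
    have h1 := EX_ge p n (fun l => f (0 :: l))
    calc p 0 ^ (n + 1) * f (List.replicate (n + 1) 0)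
        = p (0 - 0) * (p 0 ^ n * f (0 :: List.replicate n 0)) := by
          rw [List.replicate_succ, sub_zero]; ring
      _ ≤ p (0 - 0) * EX p n 0 (fun l => f (0 :: l)) := by gcongr
      _ ≤ EX p (n + 1) 0 f := by
          rw [EX]
          exact ENNReal.le_tsum (f := fun x' : ℤ => p (x' - 0) * EX p n x' (fun l => f (x' :: l))) 0

theorem conv_compl (q : ℤ → ℝ≥0∞) (hq : ∑' k, q k = 1) (f : ℤ → ℝ≥0∞) (z : ℤ) :
    1 - conv q f z ≤ conv q (fun y => 1 - f y) z := by
  rw [tsub_le_iff_left]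
  unfold conv
  rw [← ENNReal.tsum_add]
  refine hq.symm.le.trans (ENNReal.tsum_le_tsum fun k => ?_)
  rw [← mul_add]
  calc q k = q k * 1 := (mul_one _).symm
    _ ≤ q k * (f (z + k) + (1 - f (z + k))) := by
        gcongr
        exact le_add_tsub

theorem conv_exp (a5 : TaskA5) (s : ℝ≥0) (c : ℝ) (z : ℤ) :
    conv (sk s) (fun y => ENNReal.ofReal (Real.exp (c - |(y : ℝ)|))) z ≤
      ENNReal.ofReal (Real.exp (c + s * (Real.cosh 1 - 1) - |(z : ℝ)|)) := by
  obtain ⟨θ, hθ, hc⟩ : ∃ θ : ℝ, (∀ k : ℤ, -|((z + k : ℤ) : ℝ)| ≤ -|(z : ℝ)| + θ * k) ∧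
      Real.cosh θ = Real.cosh 1 := by
    rcases le_total 0 (z : ℝ) with h | h
    · refine ⟨-1, fun k => ?_, Real.cosh_neg 1⟩
      rw [abs_of_nonneg h]
      have := le_abs_self ((z + k : ℤ) : ℝ)
      push_cast at this ⊢
      linarith
    · refine ⟨1, fun k => ?_, rfl⟩
      rw [abs_of_nonpos h]
      have := neg_le_abs ((z + k : ℤ) : ℝ)
      push_cast at this ⊢
      linarith
  have h5 := a5 s θ
  rw [hc] at h5
  unfold conv
  calc ∑' k, sk s k * ENNReal.ofReal (Real.exp (c - |((z + k : ℤ) : ℝ)|))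
      ≤ ∑' k, ENNReal.ofReal (Real.exp (c - |(z : ℝ)|)) *
          (sk s k * ENNReal.ofReal (Real.exp (θ * k))) := by
        refine ENNReal.tsum_le_tsum fun k => ?_
        rw [mul_left_comm, ← ENNReal.ofReal_mul (Real.exp_nonneg _), ← Real.exp_add]
        gcongr
        linarith [hθ k]
    _ = ENNReal.ofReal (Real.exp (c - |(z : ℝ)|)) *
          ENNReal.ofReal (Real.exp (s * (Real.cosh 1 - 1))) := by
        rw [ENNReal.tsum_mul_left, h5]
    _ = ENNReal.ofReal (Real.exp (c + s * (Real.cosh 1 - 1) - |(z : ℝ)|)) := by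
        rw [← ENNReal.ofReal_mul (Real.exp_nonneg _), ← Real.exp_add]
        congr 2
        ring

theorem av_bound (a1 : TaskA1) (a5 : TaskA5) (s : ℝ≥0) : ∀ (m : ℕ) (y : ℤ),
    1 - av (sk s) (List.replicate m 0) (fun _ => 1) y ≤
      ENNReal.ofReal (Real.exp (m * (s * (Real.cosh 1 - 1)) - |(y : ℝ)|))
  | 0, y => by simp [av]
  | m + 1, y => by
    have hcosh : 0 ≤ (s : ℝ) * (Real.cosh 1 - 1) :=
      mul_nonneg s.coe_nonneg (sub_nonneg.2 (Real.one_le_cosh 1))
    rw [List.replicate_succ]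
    simp only [av]
    split_ifs with h
    · subst h
      rw [tsub_zero, ← ENNReal.ofReal_one]
      apply ENNReal.ofReal_le_ofReal
      rw [Real.one_le_exp_iff]
      simp only [Int.cast_zero, abs_zero, sub_zero]
      positivity
    · refine (conv_compl (sk s) (a1.2.2.1 s) _ y).trans ?_
      have h1 := conv_exp a5 s (m * (s * (Real.cosh 1 - 1))) y
      have h2 : conv (sk s) (fun y => 1 - av (sk s) (List.replicate m 0) (fun _ => 1) y) y ≤
          conv (sk s) (fun y => ENNReal.ofReal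
            (Real.exp (m * (s * (Real.cosh 1 - 1)) - |(y : ℝ)|))) y := by
        unfold conv
        refine ENNReal.tsum_le_tsum fun k => ?_
        gcongr
        exact av_bound a1 a5 s m _
      refine h2.trans (h1.trans ?_)
      apply ENNReal.ofReal_le_ofReal
      rw [Real.exp_le_exp]
      push_cast
      linarith

/-- the mass of the two-sided exponential -/
noncomputable def EE : ℝ≥0∞ := ∑' y : ℤ, ENNReal.ofReal (Real.exp (-|(y : ℝ)|))

theorem EE_ne_top : EE ≠ ∞ := by
  have h : Summable (fun y : ℤ => Real.exp (-|(y : ℝ)|)) := by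
    apply Summable.of_nat_of_neg
    · simpa using Real.summable_exp_neg_nat
    · simpa using Real.summable_exp_neg_nat
  exact h.tsum_ofReal_ne_top

theorem taskPos : TaskPos.{u} := by
  classical
  intro a1 a2 a5 e3 tl Ω _ P _ κ ρ ν X N Y hT t
  set B : ℝ≥0∞ := ENNReal.ofReal (Real.exp (2 * (ρ * t) * (Real.cosh 1 - 1))) * EE with hB
  have hBt : B ≠ ∞ := ENNReal.mul_ne_top ENNReal.ofReal_ne_top EE_ne_top
  have hcosh : 0 ≤ (Real.cosh 1 - 1) := sub_nonneg.2 (Real.one_le_cosh 1)
  have hpos : 0 < ENNReal.ofReal (Real.exp (-(κ * t))) *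
      ENNReal.ofReal (Real.exp (-(ν * B.toReal))) := by
    apply ENNReal.mul_pos
    · simpa using Real.exp_pos _
    · simpa using Real.exp_pos _
  refine hpos.trans_le ?_
  refine ge_of_tendsto' (tl Ω P κ ρ ν X N Y hT t 1 one_pos) fun k => ?_
  set n : ℕ := 1 * 2 ^ k with hn
  have hn0 : 0 < n := by positivity
  set h : ℝ≥0 := t / (n : ℝ≥0) with hh
  have hnh : (n : ℝ≥0) * h = t := by
    rw [hh]
    field_simp
  have hnh' : (n : ℝ) * (h : ℝ) = t := by exact_mod_cast congrArg NNReal.toReal hnh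
  have h3 := e3 Ω P κ ρ ν X N Y hT h n Set.univ
  have h4 : {ω | gl X h n ω ∈ (Set.univ : Set (List ℤ))} ∩ aliveG X N Y h n =
      aliveG X N Y h n := by
    ext ω; simp
  rw [h4] at h3
  rw [h3]
  refine le_trans ?_ (EX_ge _ n _)
  have h5 : ENNReal.ofReal (Real.exp (-(κ * t))) ≤ sk (κ * h) 0 ^ n := by
    calc ENNReal.ofReal (Real.exp (-(κ * t)))
        = ENNReal.ofReal (Real.exp (-((κ * h : ℝ≥0) : ℝ))) ^ n := by
          rw [← ENNReal.ofReal_pow (Real.exp_nonneg _), ← Real.exp_nat_mul]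
          congr 2
          rw [← hnh']
          push_cast
          ring
      _ ≤ sk (κ * h) 0 ^ n := by
          gcongr
          exact a2.2.2 (κ * h)
  have h6 : Qh (sk (ρ * h)) (0 :: List.replicate n 0) ≤ B := by
    unfold Qh
    rw [← List.replicate_succ]
    calc ∑' y : ℤ, (1 - av (sk (ρ * h)) (List.replicate (n + 1) 0) (fun _ => 1) y)
        ≤ ∑' y : ℤ, ENNReal.ofReal (Real.exp (2 * (ρ * t) * (Real.cosh 1 - 1))) *
            ENNReal.ofReal (Real.exp (-|(y : ℝ)|)) := by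
          refine ENNReal.tsum_le_tsum fun y => (av_bound a1 a5 (ρ * h) (n + 1) y).trans ?_
          rw [← ENNReal.ofReal_mul (Real.exp_nonneg _), ← Real.exp_add]
          apply ENNReal.ofReal_le_ofReal
          rw [Real.exp_le_exp]
          have h7 : ((n + 1 : ℕ) : ℝ) * (((ρ * h : ℝ≥0) : ℝ) * (Real.cosh 1 - 1)) ≤
              2 * (ρ * t) * (Real.cosh 1 - 1) := by
            have h8 : ((n + 1 : ℕ) : ℝ) * (h : ℝ) ≤ 2 * t := by
              have h9 : (1 : ℝ) ≤ n := by exact_mod_cast hn0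
              have h10 : (h : ℝ) ≤ n * h := le_mul_of_one_le_left h.coe_nonneg h9
              push_cast
              nlinarith
            calc ((n + 1 : ℕ) : ℝ) * (((ρ * h : ℝ≥0) : ℝ) * (Real.cosh 1 - 1))
                = (((n + 1 : ℕ) : ℝ) * (h : ℝ)) * (ρ * (Real.cosh 1 - 1)) := by
                  push_cast; ring
              _ ≤ (2 * t) * (ρ * (Real.cosh 1 - 1)) := by gcongr
              _ = 2 * (ρ * t) * (Real.cosh 1 - 1) := by ring
          linarith
      _ = B := by rw [ENNReal.tsum_mul_left, hB, EE]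
  have h7 : ENNReal.ofReal (Real.exp (-(ν * B.toReal))) ≤
      surv ν (sk (ρ * h)) (0 :: List.replicate n 0) := by
    unfold surv
    apply ENNReal.ofReal_le_ofReal
    rw [Real.exp_le_exp, neg_le_neg_iff]
    gcongr
  simp only [Set.mem_univ, if_true, one_mul]
  gcongr

end Pool.Agent.H885R3.MT
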